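import Pool.Agent.Work.MP_a98e4e_ag.Fu.CF.Defs
import Mathlib

section

/-!
# CF2: the case of rank two does not occur
-/

set_option autoImplicit false

open Module

attribute [local instance 100] LieRing.ofAssociativeRing

namespace LicciCF

variable {k C B : Type*} [Field k] [CharZero k] [AddCommGroup C] [Module k C] [AddCommGroup B]
  [Module k B] [FiniteDimensional k C] [FiniteDimensional k B]

/-- The operator relations of the case of rank two are contradictory. -/
theorem sl_two_contra (hB : 0 < finrank k B) (h e f : End k B)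
    (r1 : h * h - (10 : k) • h - (11 : k) • 1 + f * e = 0)
    (r2 : h * e - e * h = -((10 : k) • e)) (r3 : h * f - f * h = (10 : k) • f)
    (r4 : e * f - f * e = -((20 : k) • h)) : False := by
  have hne : Nontrivial B := Module.finrank_pos_iff.1 hB
  -- the kernel of `e` is not trivial
  have hker : ∃ v : B, v ≠ 0 ∧ e v = 0 := by
    by_contra hcon
    push Not at hcon
    have hinj : LinearMap.ker e = ⊥ := by
      rw [Submodule.eq_bot_iff]
      intro v hv
      by_contra hv0
      exact hcon v hv0 hv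
    have hu : IsUnit e := (LinearMap.isUnit_iff_ker_eq_bot e).2 hinj
    obtain ⟨g, hg⟩ := hu.exists_right_inv
    have h1 : h = e * h * g - (10 : k) • (1 : End k B) := by
      have h2 := congrArg (fun x => x * g) r2
      simp only [sub_mul, neg_mul, smul_mul_assoc] at h2
      rw [mul_assoc h e g, hg, mul_one] at h2
      have h2' : h = -((10 : k) • (1 : End k B)) + e * h * g := sub_eq_iff_eq_add.1 h2
      calc h = -((10 : k) • (1 : End k B)) + e * h * g := h2'
        _ = _ := by abel
    have h3 := congrArg (LinearMap.trace k B) h1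
    rw [map_sub, LinearMap.trace_mul_comm, map_smul, LinearMap.trace_one, ← mul_assoc] at h3
    have hg' : g * e = 1 := by
      obtain ⟨g', hg'⟩ := hu.exists_left_inv
      have : g' = g := by
        calc g' = g' * (e * g) := by rw [hg, mul_one]
          _ = g := by rw [← mul_assoc, hg', one_mul]
      rw [← this]; exact hg'
    rw [hg', one_mul] at h3
    have h4 : (10 : k) • (finrank k B : k) = 0 := by linear_combination h3
    rw [smul_eq_mul] at h4
    rcases mul_eq_zero.1 h4 with h5 | h5
    · norm_num at h5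
    · exact hB.ne' (by exact_mod_cast h5)
  obtain ⟨v, hv0, hev⟩ := hker
  -- an eigenvector in the kernel
  have hq : ∀ u : B, e u = 0 → h (h u) = (10 : k) • h u + (11 : k) • u := by
    intro u hu
    have := congrArg (fun x : End k B => x u) r1
    simp only [LinearMap.add_apply, LinearMap.sub_apply, Module.End.mul_apply, LinearMap.smul_apply,
      Module.End.one_apply, hu, map_zero, LinearMap.zero_apply, add_zero] at this
    rw [sub_sub, sub_eq_zero] at this
    exact this
  have hst : e (h v) = 0 := by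
    have := congrArg (fun x : End k B => x v) r2
    simp only [LinearMap.sub_apply, Module.End.mul_apply, LinearMap.neg_apply, LinearMap.smul_apply,
      hev, map_zero, smul_zero, neg_zero, zero_sub, neg_eq_zero] at this
    exact this
  have heig : ∃ (w : B) (c : k), w ≠ 0 ∧ e w = 0 ∧ h w = c • w ∧ (c = -1 ∨ c = 11) := by
    by_cases hw : h v - (11 : k) • v = 0
    · exact ⟨v, 11, hv0, hev, sub_eq_zero.1 hw, Or.inr rfl⟩
    · refine ⟨h v - (11 : k) • v, -1, hw, ?_, ?_, Or.inl rfl⟩
      · rw [map_sub, map_smul, hst, hev, smul_zero, sub_zero]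
      · rw [map_sub, map_smul, hq v hev]
        module
  obtain ⟨w, c, hw0, hew, hhw, hc⟩ := heig
  set H : End k B := (-(5 : k)⁻¹) • h with hH
  set E : End k B := ((10 : k)⁻¹) • e with hE
  set F : End k B := ((10 : k)⁻¹) • f with hF
  have hHw : H w = (-(5 : k)⁻¹ * c) • w := by
    rw [hH, LinearMap.smul_apply, hhw, smul_smul]
  have hc0 : -(5 : k)⁻¹ * c ≠ 0 := by
    rcases hc with rfl | rfl
    · have : -(5 : k)⁻¹ * -1 = 5⁻¹ := by ring
      rw [this]
      exact inv_ne_zero (by norm_num)
    · exact mul_ne_zero (neg_ne_zero.2 (inv_ne_zero (by norm_num))) (by norm_num)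
  have t : IsSl2Triple H E F := by
    refine ⟨?_, ?_, ?_, ?_⟩
    · intro h0
      rw [h0, LinearMap.zero_apply] at hHw
      rcases smul_eq_zero.1 hHw.symm with h1 | h1
      · exact hc0 h1
      · exact hw0 h1
    · rw [Ring.lie_def, hE, hF, hH, smul_mul_smul_comm, smul_mul_smul_comm, ← smul_sub, r4, smul_neg,
        smul_smul, ← neg_smul]
      congr 1
      norm_num
    · rw [Ring.lie_def, hE, hH, smul_mul_smul_comm, smul_mul_smul_comm, mul_comm (10 : k)⁻¹, ← smul_sub, r2,
        smul_neg, smul_smul, ← neg_smul, ← Nat.cast_smul_eq_nsmul k, smul_smul]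
      congr 1
      norm_num
    · rw [Ring.lie_def, hF, hH, smul_mul_smul_comm, smul_mul_smul_comm, mul_comm (10 : k)⁻¹, ← smul_sub, r3,
        smul_smul, ← Nat.cast_smul_eq_nsmul k, smul_smul, ← neg_smul]
      congr 1
      norm_num
  have hp : t.HasPrimitiveVectorWith w (-(5 : k)⁻¹ * c) := by
    refine ⟨hw0, ?_, ?_⟩
    · exact hHw
    · show E w = 0
      rw [hE, LinearMap.smul_apply, hew, smul_zero]
  obtain ⟨n, hn⟩ := hp.exists_nat
  rcases hc with rfl | rfl
  · have h1 : (1 : k) = ((5 * n : ℕ) : k) := by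
      push_cast
      rw [← hn]
      norm_num
    have h2 : 1 = 5 * n := by exact_mod_cast h1
    omega
  · have h1 : ((11 + 5 * n : ℕ) : k) = 0 := by
      push_cast
      rw [← hn]
      norm_num
    have h2 : 11 + 5 * n = 0 := by exact_mod_cast h1
    omega

/-- CF2 -/
theorem ne_two {P : Dat k C B} (hP : P.IsPkg) : finrank k C ≠ 2 := by
  intro h2
  have hdim := hP.dim
  rw [h2] at hdim
  let b : Basis (Fin 2) k C := (finBasisOfFinrankEq k C h2)
  have c00 : b.coord 0 (b 0) = 1 := by simp
  have c01 : b.coord 0 (b 1) = 0 := by simp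
  have c10 : b.coord 1 (b 0) = 0 := by simp
  have c11 : b.coord 1 (b 1) = 1 := by simp
  set R11 : End k B := P.R (b 0) (b.coord 0) with hR11
  set R12 : End k B := P.R (b 0) (b.coord 1) with hR12
  set R21 : End k B := P.R (b 1) (b.coord 0) with hR21
  set R22 : End k B := P.R (b 1) (b.coord 1) with hR22
  have D11 : R11 * R11 + R21 * R12 = (12 : k) • R11 := by
    have := hP.d1 (Fin 2) b (b 0) (b.coord 0)
    rw [Fin.sum_univ_two] at this
    exact this
  have D22 : R12 * R21 + R22 * R22 = (12 : k) • R22 := by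
    have := hP.d1 (Fin 2) b (b 1) (b.coord 1)
    rw [Fin.sum_univ_two] at this
    exact this
  have D12 : R12 * R11 + R22 * R12 = (12 : k) • R12 := by
    have := hP.d1 (Fin 2) b (b 0) (b.coord 1)
    rw [Fin.sum_univ_two] at this
    exact this
  have D21 : R11 * R21 + R21 * R22 = (12 : k) • R21 := by
    have := hP.d1 (Fin 2) b (b 1) (b.coord 0)
    rw [Fin.sum_univ_two] at this
    exact this
  -- adjoints
  have adj : ∀ (x : C) (ξ : Dual k C) (u w : B), P.ω (P.R x ξ u) w = P.ω u ((2 * ξ x) • w - P.R x ξ w) := by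
    intro x ξ u w
    have := hP.sp x ξ u w
    simp only [Dat.R, LinearMap.add_apply, LinearMap.smul_apply, LinearMap.id_apply, map_add, map_smul,
      map_sub, smul_eq_mul]
    linear_combination this
  have a11 : ∀ u w, P.ω (R11 u) w = P.ω u ((2 : k) • w - R11 w) := by
    intro u w; rw [hR11, adj, c00, mul_one]
  have a12 : ∀ u w, P.ω (R12 u) w = -P.ω u (R12 w) := by
    intro u w; rw [hR12, adj, c10, mul_zero, zero_smul, zero_sub, map_neg]
  have a21 : ∀ u w, P.ω (R21 u) w = -P.ω u (R21 w) := by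
    intro u w; rw [hR21, adj, c01, mul_zero, zero_smul, zero_sub, map_neg]
  have a22 : ∀ u w, P.ω (R22 u) w = P.ω u ((2 : k) • w - R22 w) := by
    intro u w; rw [hR22, adj, c11, mul_one]
  have nd : ∀ X Y : End k B, (∀ u w, P.ω (X u) w = P.ω (Y u) w) → X = Y := by
    intro X Y hXY
    ext u
    rw [← sub_eq_zero]
    refine hP.nondeg _ fun w => ?_
    rw [map_sub, LinearMap.sub_apply, hXY, sub_self]
  have E11 : R11 * R11 + R12 * R21 = (20 : k) • 1 - (8 : k) • R11 := by
    refine nd _ _ fun u w => ?_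
    have h1 := congrArg (fun X : End k B => P.ω u (X w)) D11
    simp only [LinearMap.add_apply, LinearMap.sub_apply, Module.End.mul_apply, LinearMap.smul_apply,
      Module.End.one_apply, map_add, map_sub, map_smul, smul_eq_mul, a11, a12, a21] at h1 ⊢
    linear_combination h1
  have E22 : R21 * R12 + R22 * R22 = (20 : k) • 1 - (8 : k) • R22 := by
    refine nd _ _ fun u w => ?_
    have h1 := congrArg (fun X : End k B => P.ω u (X w)) D22
    simp only [LinearMap.add_apply, LinearMap.sub_apply, Module.End.mul_apply, LinearMap.smul_apply,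
      Module.End.one_apply, map_add, map_sub, map_smul, smul_eq_mul, a22, a12, a21] at h1 ⊢
    linear_combination h1
  have htau : R22 = (2 : k) • 1 - R11 := by
    have h1 : (20 : k) • (R22 - ((2 : k) • 1 - R11)) = 0 := by
      have e1 : R11 * R11 + R21 * R12 + (R12 * R21 + R22 * R22) = (12 : k) • R11 + (12 : k) • R22 := by
        rw [D11, D22]
      have e2 : R11 * R11 + R12 * R21 + (R21 * R12 + R22 * R22) =
          (20 : k) • 1 - (8 : k) • R11 + ((20 : k) • 1 - (8 : k) • R22) := by rw [E11, E22]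
      have e3 : (12 : k) • R11 + (12 : k) • R22 =
          (20 : k) • (1 : End k B) - (8 : k) • R11 + ((20 : k) • 1 - (8 : k) • R22) := by
        rw [← e1, ← e2]; abel
      linear_combination (norm := module) e3
    have h3 := (smul_eq_zero.1 h1).resolve_left (by norm_num)
    exact sub_eq_zero.1 h3
  refine sl_two_contra (k := k) (B := B) (by omega) (R11 - 1) R12 R21 ?_ ?_ ?_ ?_
  · have : (R11 - 1) * (R11 - 1) = R11 * R11 - (2 : k) • R11 + 1 := by
      rw [sub_mul, mul_sub, mul_one, one_mul, two_smul]; abel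
    rw [this]
    linear_combination (norm := module) D11
  · rw [htau] at D12
    have e1 : (R11 - 1) * R12 - R12 * (R11 - 1) = R11 * R12 - R12 * R11 := by noncomm_ring
    have e2 : ((2 : k) • (1 : End k B) - R11) * R12 = (2 : k) • R12 - R11 * R12 := by
      rw [sub_mul, smul_mul_assoc, one_mul]
    rw [e1]
    rw [e2] at D12
    linear_combination (norm := module) -D12
  · rw [htau] at D21
    have e1 : (R11 - 1) * R21 - R21 * (R11 - 1) = R11 * R21 - R21 * R11 := by noncomm_ring
    have e2 : R21 * ((2 : k) • (1 : End k B) - R11) = (2 : k) • R21 - R21 * R11 := by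
      rw [mul_sub, mul_smul_comm, mul_one]
    rw [e1]
    rw [e2] at D21
    linear_combination (norm := module) D21
  · linear_combination (norm := module) E11 - D11

end LicciCF

end

section

/-!
# CF3: the homology package
-/

set_option autoImplicit false
set_option linter.unusedSectionVars false

open Module

namespace LicciCF

variable {k C B : Type*} [Field k] [CharZero k] [AddCommGroup C] [Module k C] [AddCommGroup B]
  [Module k B] [FiniteDimensional k C] [FiniteDimensional k B]

namespace Dat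

variable {P : Dat k C B}

lemma R_apply (x : C) (ξ : Dual k C) (u : B) : P.R x ξ u = ξ x • u + P.σ x ξ u := by
  simp [R]

lemma T_apply (x : C) (ξ : Dual k C) (y : C) :
    P.T x ξ y = (2 * ξ y) • x - ξ x • y - P.S x y ξ := by
  simp [T, mul_smul]

namespace IsPkg

variable (hP : P.IsPkg)
include hP

lemma anti (u w : B) : P.ω u w = -P.ω w u := by
  have h := hP.alt (u + w)
  simp only [map_add, LinearMap.add_apply, hP.alt] at h
  linear_combination h

lemma eq_of (u v : B) (h : ∀ w, P.ω u w = P.ω v w) : u = v := by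
  rw [← sub_eq_zero]
  apply hP.nondeg
  intro w
  rw [map_sub, LinearMap.sub_apply, h, sub_self]

lemma sp' (x : C) (ξ : Dual k C) (u w : B) : P.ω u (P.σ x ξ w) = -P.ω (P.σ x ξ u) w := by
  linear_combination hP.sp x ξ u w

lemma S_anti (x y : C) : P.S x y = -P.S y x := by
  have h := hP.S_alt (x + y)
  simp only [map_add, LinearMap.add_apply, hP.S_alt] at h
  rw [eq_neg_iff_add_eq_zero, add_comm]
  simpa using h

end IsPkg

namespace IsDer

variable (hP : P.IsPkg) {δ : Dual k C →ₗ[k] B} {del : B →ₗ[k] C} (hd : P.IsDer δ del)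
include hP hd

lemma ker_iff (ξ : Dual k C) : δ ξ = 0 ↔ ∀ u, ξ (del u) = 0 := by
  constructor
  · intro h u
    rw [hd.adj, h, map_zero, LinearMap.zero_apply]
  · intro h
    apply hP.nondeg
    intro w
    rw [← hd.adj, h]

omit hP in
lemma dqR (hP : P.IsPkg) (x : C) (u : B) (ξ η : Dual k C) :
    η (P.S x (del u) ξ) = P.ω (δ ξ) (P.R x η u) - P.ω (δ η) (P.R x ξ u) := by
  rw [hd.dq, Dat.R_apply, Dat.R_apply, map_add, map_add, map_smul, map_smul, hP.sp', hP.sp',
    hd.adj, hd.adj]
  simp only [smul_eq_mul]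
  ring

lemma S_del {x ε : C} {u a : B} (h : ∀ ξ, P.R x ξ u = P.R ε ξ a) :
    P.S x (del u) = P.S ε (del a) := by
  ext ξ
  rw [← sub_eq_zero, ← Module.forall_dual_apply_eq_zero_iff k]
  intro η
  rw [map_sub, hd.dqR hP, hd.dqR hP, h, h, sub_self]

lemma del_sigma {x : C} {ξ : Dual k C} (hξ : δ ξ = 0) {u : B} (hu : del u = 0) :
    del (P.σ x ξ u) = 0 := by
  rw [← Module.forall_dual_apply_eq_zero_iff k]
  intro η
  rw [hd.adj, hP.sp']
  have h := hd.dq x u ξ η
  rw [hu, hξ] at h
  simp only [map_zero, LinearMap.zero_apply, mul_zero, sub_zero, add_zero] at h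
  rw [← h, neg_zero]

lemma T_del {x : C} {ξ : Dual k C} (hξ : δ ξ = 0) (u : B) :
    P.T x ξ (del u) = del (P.σ x ξ u) := by
  rw [← sub_eq_zero, ← Module.forall_dual_apply_eq_zero_iff k]
  intro η
  have h := hd.dq x u ξ η
  have h2 : ξ (del u) = 0 := (hd.ker_iff hP ξ).1 hξ u
  rw [hξ, h2] at h
  rw [map_sub, hd.adj η (P.σ x ξ u), hP.sp', Dat.T_apply, map_sub, map_sub, h, h2]
  simp only [map_zero, LinearMap.zero_apply, map_smul, smul_eq_mul, mul_zero, zero_smul]
  ring

lemma sigma_delta {x : C} {ξ : Dual k C} (hξ : δ ξ = 0) (η : Dual k C) :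
    P.σ x ξ (δ η) = -δ (η ∘ₗ P.T x ξ) := by
  apply hP.eq_of
  intro w
  have h : P.ω (δ (η ∘ₗ P.T x ξ)) w = η (P.T x ξ (del w)) := by
    rw [← hd.adj]
    rfl
  rw [map_neg, LinearMap.neg_apply, h, hd.T_del hP hξ, hd.adj, hP.sp', neg_neg]

lemma R_delta {x : C} {ξ : Dual k C} (hξ : δ ξ = 0) (η : Dual k C) :
    ∃ ζ, P.R x ξ (δ η) = δ ζ := by
  refine ⟨ξ x • η - η ∘ₗ P.T x ξ, ?_⟩
  rw [Dat.R_apply, hd.sigma_delta hP hξ, map_sub, map_smul, sub_eq_add_neg]

/-- the image of `del` is the annihilator of `ker δ`. -/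
lemma S_mem {x : C} {ξ η : Dual k C} (hξ : δ ξ = 0) (hη : δ η = 0) (u : B) :
    η (P.S x (del u) ξ) = 0 := by
  rw [hd.dqR hP, hξ, hη]
  simp

end IsDer

end Dat

lemma trace_coord {V ι : Type*} [AddCommGroup V] [Module k V] [Fintype ι] (b : Basis ι k V)
    (M : V →ₗ[k] V) : LinearMap.trace k V M = ∑ i, b.coord i (M (b i)) := by
  classical
  rw [LinearMap.trace_eq_matrix_trace k b, Matrix.trace]
  refine Finset.sum_congr rfl fun i _ => ?_
  rw [Matrix.diag_apply, LinearMap.toMatrix_apply, Basis.coord_apply]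

lemma comp_sum' {V W U ι : Type*} [AddCommGroup V] [Module k V] [AddCommGroup W] [Module k W]
    [AddCommGroup U] [Module k U] [Fintype ι] (M : W →ₗ[k] U) (X : ι → V →ₗ[k] W) :
    M ∘ₗ (∑ i, X i) = ∑ i, M ∘ₗ X i := by
  ext v
  simp [LinearMap.sum_apply]

/-! ## Splittings -/

/-- Complements of `range del` in `C` and of `range δ` in `ker del`. -/
structure Spl (P : Dat k C B) (δ : Dual k C →ₗ[k] B) (del : B →ₗ[k] C) where
  C' : Submodule k C
  B' : Submodule k B
  π : C →ₗ[k] C'
  ρ : B →ₗ[k] B'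
  π_del : ∀ u, π (del u) = 0
  π_id : ∀ x : C', π x = x
  π_ker : ∀ x, π x = 0 → ∃ u, del u = x
  B'_le : ∀ w : B', del w = 0
  ρ_id : ∀ w : B', ρ w = w
  ρ_ω : ∀ u (w : B'), P.ω (ρ u) w = P.ω u w
  ρ_ker : ∀ u, del u = 0 → ρ u = 0 → ∃ ξ, δ ξ = u
  nd : ∀ w : B', (∀ w' : B', P.ω w w' = 0) → w = 0
  compl : IsCompl (LinearMap.range del) C'

theorem exists_spl {P : Dat k C B} (hP : P.IsPkg) {δ : Dual k C →ₗ[k] B} {del : B →ₗ[k] C}
    (hd : P.IsDer δ del) : Nonempty (Spl P δ del) := by
  obtain ⟨C', hC'⟩ := Submodule.exists_isCompl (LinearMap.range del)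
  obtain ⟨Q, hQ⟩ := Submodule.exists_isCompl (LinearMap.range δ)
  set B' : Submodule k B := Q ⊓ LinearMap.ker del with hB'
  have hle : LinearMap.range δ ≤ LinearMap.ker del := by
    rintro _ ⟨ξ, rfl⟩
    exact hd.sq ξ
  have hdec : ∀ u, del u = 0 → ∃ ξ, ∃ w ∈ B', u = δ ξ + w := by
    intro u hu
    have h1 : u ∈ LinearMap.range δ ⊔ Q := by rw [hQ.sup_eq_top]; trivial
    obtain ⟨_, ⟨ξ, rfl⟩, w, hw, rfl⟩ := Submodule.mem_sup.1 h1
    rw [map_add, hd.sq, zero_add] at hu
    exact ⟨ξ, w, ⟨hw, LinearMap.mem_ker.2 hu⟩, rfl⟩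
  have hortho : ∀ ξ, ∀ w ∈ B', P.ω (δ ξ) w = 0 := by
    intro ξ w hw
    rw [← hd.adj, LinearMap.mem_ker.1 hw.2, map_zero]
  have hnd : ∀ w : B', (∀ w' : B', P.ω w w' = 0) → w = 0 := by
    rintro ⟨w, hw⟩ h
    -- `w` is orthogonal to `ker del`
    have h1 : ∀ u, del u = 0 → P.ω w u = 0 := by
      intro u hu
      obtain ⟨ξ, w', hw', rfl⟩ := hdec u hu
      rw [map_add, hP.anti w (δ ξ), hortho ξ w hw, neg_zero, zero_add]
      exact h ⟨w', hw'⟩
    -- so it is in `range δ`
    have h2 : ∃ ξ : Dual k C, δ ξ = w := by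
      have h3 : P.ω w ∈ (LinearMap.ker del).dualAnnihilator := by
        rw [Submodule.mem_dualAnnihilator]
        exact fun u hu => h1 u hu
      rw [← LinearMap.range_dualMap_eq_dualAnnihilator_ker] at h3
      obtain ⟨ξ, hξ⟩ := h3
      refine ⟨ξ, hP.eq_of _ _ fun u => ?_⟩
      rw [← hd.adj, ← hξ]
      rfl
    obtain ⟨ξ, hξ⟩ := h2
    have h4 : w ∈ LinearMap.range δ ⊓ Q := ⟨⟨ξ, hξ⟩, hw.1⟩
    rw [hQ.inf_eq_bot, Submodule.mem_bot] at h4
    exact Subtype.ext h4
  -- the orthogonal projection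
  set φ : B' →ₗ[k] Dual k B' := P.ω.compl₁₂ B'.subtype B'.subtype with hφ
  have hφi : Function.Injective φ := by
    rw [injective_iff_map_eq_zero]
    intro w hw
    apply hnd
    intro w'
    exact LinearMap.congr_fun hw w'
  have hφb : Function.Bijective φ := ⟨hφi,
    (LinearMap.injective_iff_surjective_of_finrank_eq_finrank
      (Subspace.dual_finrank_eq).symm).1 hφi⟩
  set e : B' ≃ₗ[k] Dual k B' := LinearEquiv.ofBijective φ hφb with he
  set ψ : B →ₗ[k] Dual k B' := P.ω.compl₁₂ LinearMap.id B'.subtype with hψ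
  have hρω : ∀ u (w : B'), P.ω (e.symm (ψ u)) w = P.ω u w := by
    intro u w
    have h1 : φ (e.symm (ψ u)) = ψ u := e.apply_symm_apply (ψ u)
    exact LinearMap.congr_fun h1 w
  have hρid : ∀ w : B', e.symm (ψ w) = w := by
    intro w
    rw [LinearEquiv.symm_apply_eq]
    rfl
  refine ⟨⟨C', B', Submodule.projectionOnto C' _ hC'.symm, e.symm.toLinearMap ∘ₗ ψ, ?_, ?_,
    ?_, ?_, hρid, hρω, ?_, hnd, hC'⟩⟩
  · intro u
    rw [Submodule.projectionOnto_apply_eq_zero_iff]
    exact ⟨u, rfl⟩
  · intro x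
    exact Submodule.projectionOnto_apply_left hC'.symm x
  · intro x hx
    rw [Submodule.projectionOnto_apply_eq_zero_iff] at hx
    exact hx
  · intro w
    exact LinearMap.mem_ker.1 w.2.2
  · intro u hu hρ
    obtain ⟨ξ, w, hw, rfl⟩ := hdec u hu
    have h1 : (e.symm.toLinearMap ∘ₗ ψ) (δ ξ) = 0 := by
      have h2 : ψ (δ ξ) = 0 := by
        ext w'
        exact hortho ξ w' w'.2
      simp [h2]
    rw [map_add, h1, zero_add] at hρ
    have h2 : (⟨w, hw⟩ : B') = 0 := by rw [← hρid ⟨w, hw⟩]; exact hρ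
    have h3 : w = 0 := congrArg Subtype.val h2
    exact ⟨ξ, by rw [h3, add_zero]⟩


namespace Spl

variable {P : Dat k C B} {δ : Dual k C →ₗ[k] B} {del : B →ₗ[k] C} (s : Spl P δ del)

/-- The homology package. -/
noncomputable def dat : Dat k s.C' s.B' where
  ω := P.ω.compl₁₂ s.B'.subtype s.B'.subtype
  σ := LinearMap.mk₂ k (fun x f => s.ρ ∘ₗ P.σ x (s.π.dualMap f) ∘ₗ s.B'.subtype)
    (fun x x' f => by ext u; simp) (fun c x f => by ext u; simp)
    (fun x f f' => by ext u; simp) (fun c x f => by ext u; simp)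
  S := LinearMap.mk₂ k (fun x y => s.π ∘ₗ P.S x y ∘ₗ s.π.dualMap)
    (fun x x' f => by ext u; simp) (fun c x f => by ext u; simp)
    (fun x f f' => by ext u; simp) (fun c x f => by ext u; simp)

lemma dat_ω (u w : s.B') : s.dat.ω u w = P.ω u w := rfl

lemma dat_σ (x : s.C') (f : Dual k s.C') (u : s.B') :
    s.dat.σ x f u = s.ρ (P.σ x (s.π.dualMap f) u) := rfl

lemma dat_S (x y : s.C') (f : Dual k s.C') :
    s.dat.S x y f = s.π (P.S x y (s.π.dualMap f)) := rfl

lemma dualMap_del (f : Dual k s.C') (u : B) : s.π.dualMap f (del u) = 0 := by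
  rw [LinearMap.dualMap_apply, s.π_del, map_zero]

lemma dualMap_coe (f : Dual k s.C') (x : s.C') : s.π.dualMap f x = f x := by
  rw [LinearMap.dualMap_apply, s.π_id]

lemma dat_R (x : s.C') (f : Dual k s.C') (u : s.B') :
    s.dat.R x f u = s.ρ (P.R x (s.π.dualMap f) u) := by
  rw [Dat.R_apply, Dat.R_apply, s.dat_σ, map_add, map_smul, s.ρ_id, s.dualMap_coe]

lemma dat_T (x : s.C') (f : Dual k s.C') (y : s.C') :
    s.dat.T x f y = s.π (P.T x (s.π.dualMap f) y) := by
  rw [Dat.T_apply, Dat.T_apply, s.dat_S, map_sub, map_sub, map_smul, map_smul, s.π_id, s.π_id,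
    s.dualMap_coe, s.dualMap_coe]

section

variable (hP : P.IsPkg) (hd : P.IsDer δ del)
include hP hd

lemma δ_dualMap (f : Dual k s.C') : δ (s.π.dualMap f) = 0 :=
  (hd.ker_iff hP _).2 fun u => s.dualMap_del f u

omit hP in
lemma ρ_δ (ξ : Dual k C) : s.ρ (δ ξ) = 0 := by
  apply s.nd
  intro w
  rw [s.ρ_ω, ← hd.adj, s.B'_le, map_zero]

/-- `u - ρ u` is a boundary for a cycle `u`. -/
lemma cyc {u : B} (hu : del u = 0) : ∃ ζ, u = s.ρ u + δ ζ := by
  have h1 : del (u - s.ρ u) = 0 := by rw [map_sub, hu, s.B'_le, sub_zero]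
  have h2 : s.ρ (u - s.ρ u) = 0 := by rw [map_sub, s.ρ_id, sub_self]
  obtain ⟨ζ, hζ⟩ := s.ρ_ker _ h1 h2
  exact ⟨ζ, by rw [hζ]; abel⟩

lemma ρ_R {x : C} {ξ : Dual k C} (hξ : δ ξ = 0) {u : B} (hu : del u = 0) :
    s.ρ (P.R x ξ (s.ρ u)) = s.ρ (P.R x ξ u) := by
  obtain ⟨ζ, hζ⟩ := s.cyc hP hd hu
  obtain ⟨η, hη⟩ := hd.R_delta hP (x := x) hξ ζ
  conv_rhs => rw [hζ, map_add, hη, map_add, s.ρ_δ hd, add_zero]

lemma ρ_sigma {x : C} {ξ : Dual k C} (hξ : δ ξ = 0) {u : B} (hu : del u = 0) :
    s.ρ (P.σ x ξ (s.ρ u)) = s.ρ (P.σ x ξ u) := by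
  obtain ⟨ζ, hζ⟩ := s.cyc hP hd hu
  conv_rhs => rw [hζ, map_add, hd.sigma_delta hP hξ, map_add, map_neg, s.ρ_δ hd, neg_zero,
    add_zero]

lemma π_S_del {x : C} {ξ : Dual k C} (hξ : δ ξ = 0) (u : B) :
    s.π (P.S x (del u) ξ) = 0 := by
  rw [← Module.forall_dual_apply_eq_zero_iff k]
  intro f
  exact hd.S_mem hP hξ (s.δ_dualMap hP hd f) u

lemma π_S_del' {x : C} {ξ : Dual k C} (hξ : δ ξ = 0) (u : B) :
    s.π (P.S (del u) x ξ) = 0 := by
  rw [hP.S_anti, LinearMap.neg_apply, map_neg, s.π_S_del hP hd hξ, neg_zero]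

omit hP hd in
/-- `x - π x` is in the range of `del`. -/
lemma cyc' (x : C) : ∃ u, x = s.π x + del u := by
  have h1 : s.π (x - s.π x) = 0 := by rw [map_sub, s.π_id, sub_self]
  obtain ⟨u, hu⟩ := s.π_ker _ h1
  exact ⟨u, by rw [hu]; abel⟩

lemma π_S_π {x y : C} {ξ : Dual k C} (hξ : δ ξ = 0) :
    s.π (P.S (s.π x) y ξ) = s.π (P.S x y ξ) := by
  obtain ⟨u, hu⟩ := s.cyc' x
  conv_rhs => rw [hu, map_add, LinearMap.add_apply, LinearMap.add_apply, map_add,
    s.π_S_del' hP hd hξ, add_zero]

lemma π_S_π' {x y : C} {ξ : Dual k C} (hξ : δ ξ = 0) :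
    s.π (P.S x (s.π y) ξ) = s.π (P.S x y ξ) := by
  rw [hP.S_anti, LinearMap.neg_apply, map_neg, s.π_S_π hP hd hξ, ← map_neg,
    ← LinearMap.neg_apply, ← hP.S_anti]

lemma π_T_π {x y : C} {ξ : Dual k C} (hξ : δ ξ = 0) :
    s.π (P.T x ξ (s.π y)) = s.π (P.T x ξ y) := by
  obtain ⟨u, hu⟩ := s.cyc' y
  conv_rhs => rw [hu, map_add, hd.T_del hP hξ, map_add, s.π_del, add_zero]

end

/-- An adapted basis of `C`. -/
structure Adp {ι : Type} (e' : Basis ι k s.C') where
  κ : Type
  fin : Fintype κ
  E : Basis (κ ⊕ ι) k C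
  u : κ → B
  del_u : ∀ i, del (u i) = E (Sum.inl i)
  ρ_u : ∀ i, s.ρ (u i) = 0
  inr : ∀ j, E (Sum.inr j) = e' j
  coord_inr : ∀ j, E.coord (Sum.inr j) = s.π.dualMap (e'.coord j)

theorem exists_adp {ι : Type} (e' : Basis ι k s.C') : Nonempty (s.Adp e') := by
  classical
  set eI := Module.finBasis k (LinearMap.range del) with heI
  set E : Basis (Fin (finrank k (LinearMap.range del)) ⊕ ι) k C :=
    (eI.prod e').map (Submodule.prodEquivOfIsCompl _ _ s.compl) with hE
  have h1 : ∀ i, E (Sum.inl i) = eI i := by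
    intro i
    simp [hE]
  have h2 : ∀ j, E (Sum.inr j) = e' j := by
    intro j
    simp [hE]
  have h3 : ∀ i, ∃ u, del u = E (Sum.inl i) ∧ s.ρ u = 0 := by
    intro i
    obtain ⟨u, hu⟩ := (eI i).2
    refine ⟨u - s.ρ u, ?_, ?_⟩
    · rw [map_sub, s.B'_le, sub_zero, hu, h1]
    · rw [map_sub, s.ρ_id, sub_self]
  choose u hu hρ using h3
  refine ⟨⟨_, inferInstance, E, u, hu, hρ, h2, fun j => ?_⟩⟩
  apply E.ext
  rintro (i | l)
  · rw [Basis.coord_apply, Basis.repr_self, ← hu, s.dualMap_del,
      Finsupp.single_apply, if_neg (by simp)]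
  · rw [Basis.coord_apply, Basis.repr_self, h2, s.dualMap_coe, Basis.coord_apply,
      Basis.repr_self, Finsupp.single_apply, Finsupp.single_apply]
    simp

section

variable {s} {ι : Type} {e' : Basis ι k s.C'} (a : s.Adp e')

/-- the coordinate of `E (inl i)` -/
noncomputable def Adp.ξ (i : a.κ) : Dual k C := a.E.coord (Sum.inl i)

lemma Adp.ξ_inr (i : a.κ) (j : ι) : a.ξ i (e' j) = 0 := by
  classical
  rw [Adp.ξ, ← a.inr, Basis.coord_apply, Basis.repr_self, Finsupp.single_apply,
    if_neg (by simp)]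

lemma Adp.ξ_coe (i : a.κ) (x : s.C') : a.ξ i x = 0 := by
  have h : (a.ξ i) ∘ₗ s.C'.subtype = 0 := by
    apply e'.ext
    intro j
    exact a.ξ_inr i j
  exact LinearMap.congr_fun h x

variable [Fintype ι]

/-- a boundary is a combination of the `E (inl i)`. -/
lemma Adp.del_eq [Fintype a.κ] (v : B) :
    del v = ∑ i, a.ξ i (del v) • del (a.u i) := by
  have h := a.E.sum_repr (del v)
  rw [Fintype.sum_sum_type] at h
  have h2 : ∑ j, (a.E.repr (del v)) (Sum.inr j) • a.E (Sum.inr j) = 0 := by
    refine Finset.sum_eq_zero fun j _ => ?_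
    have h3 : (a.E.repr (del v)) (Sum.inr j) = 0 := by
      have h4 := LinearMap.congr_fun (a.coord_inr j) (del v)
      rw [s.dualMap_del] at h4
      exact h4
    rw [h3, zero_smul]
  rw [h2, add_zero] at h
  rw [← h]
  conv_lhs => rw [← h]
  refine Finset.sum_congr rfl fun i _ => ?_
  rw [a.del_u, h]
  rfl

end

section pkg

variable (hP : P.IsPkg) (hd : P.IsDer δ del)
include hP hd

lemma dat_d2 (ι : Type) [Fintype ι] (e' : Basis ι k s.C') (x y : s.C') :
    ∑ j, s.dat.S (s.dat.S x y (e'.coord j)) (e' j) = (24 : k) • s.dat.S x y := by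
  obtain ⟨a⟩ := s.exists_adp e'
  let _ := a.fin
  ext1 f
  have h := LinearMap.congr_fun (hP.d2 _ a.E x y) (s.π.dualMap f)
  rw [Fintype.sum_sum_type, LinearMap.add_apply, LinearMap.sum_apply, LinearMap.sum_apply] at h
  have h2 := congrArg s.π h
  rw [map_add, map_sum, map_sum] at h2
  have h3 : ∑ i, s.π (P.S (P.S x y (a.E.coord (Sum.inl i))) (a.E (Sum.inl i))
      (s.π.dualMap f)) = 0 := by
    refine Finset.sum_eq_zero fun i _ => ?_
    rw [← a.del_u]
    exact s.π_S_del hP hd (s.δ_dualMap hP hd f) _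
  rw [h3, zero_add] at h2
  rw [LinearMap.sum_apply, LinearMap.smul_apply, s.dat_S, ← map_smul, ← LinearMap.smul_apply,
    ← h2]
  refine Finset.sum_congr rfl fun j _ => ?_
  rw [s.dat_S, s.dat_S, s.π_S_π hP hd (s.δ_dualMap hP hd f), a.inr, a.coord_inr]

/-- the correction term in (D1') -/
lemma corr {ι : Type} [Fintype ι] {e' : Basis ι k s.C'} (a : s.Adp e') [Fintype a.κ]
    (x : s.C') {ξ : Dual k C} (hξ : δ ξ = 0) (u w : s.B') :
    ∑ i, P.ω (P.R (del (a.u i)) ξ (P.R x (a.ξ i) u)) w = 0 := by
  have h0 : ∀ v, ξ (del v) = 0 := (hd.ker_iff hP ξ).1 hξ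
  -- the symmetric matrix
  set T : a.κ → a.κ → k := fun i l => a.ξ l (del (P.R x (a.ξ i) u)) with hT
  have hTs : ∀ i l, T i l = T l i := by
    intro i l
    have h := hd.dqR hP x u (a.ξ i) (a.ξ l)
    rw [s.B'_le, map_zero, LinearMap.zero_apply, map_zero] at h
    simp only [hT, hd.adj]
    linear_combination h
  -- the antisymmetric matrix
  set Y : a.κ → a.κ → k := fun l i => P.ω (P.σ (del (a.u l)) ξ w) (a.u i) with hY
  have hYs : ∀ i l, Y i l = -Y l i := by
    intro i l
    have h := hd.dq2 ξ hξ (a.u l) w (a.u i)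
    rw [s.B'_le, map_zero, LinearMap.zero_apply, LinearMap.zero_apply, map_zero,
      LinearMap.zero_apply, add_zero] at h
    have h2 := hP.sp (del (a.u i)) ξ (a.u l) w
    have h3 := hP.anti (a.u l) (P.σ (del (a.u i)) ξ w)
    simp only [hY]
    linear_combination h - h2 + h3
  have h1 : ∀ i, P.ω (P.R (del (a.u i)) ξ (P.R x (a.ξ i) u)) w = -∑ l, T i l * Y l i := by
    intro i
    set v := P.R x (a.ξ i) u with hv
    have h := hd.dq2 ξ hξ (a.u i) v w
    rw [s.B'_le w, map_zero, LinearMap.zero_apply, LinearMap.zero_apply, map_zero,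
      LinearMap.zero_apply, add_zero] at h
    have h2 : P.ω (P.σ (del v) ξ w) (a.u i) = ∑ l, T i l * Y l i := by
      rw [a.del_eq v]
      simp only [map_sum, LinearMap.sum_apply, map_smul, LinearMap.smul_apply, smul_eq_mul]
      rfl
    rw [Dat.R_apply, h0, zero_smul, zero_add, ← h2]
    linear_combination h
  simp only [h1]
  rw [Finset.sum_neg_distrib, neg_eq_zero]
  have h2 : ∑ i, ∑ l, T i l * Y l i = -∑ i, ∑ l, T i l * Y l i := by
    conv_lhs => rw [Finset.sum_comm]
    rw [← Finset.sum_neg_distrib]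
    refine Finset.sum_congr rfl fun i _ => ?_
    rw [← Finset.sum_neg_distrib]
    refine Finset.sum_congr rfl fun l _ => ?_
    rw [hTs l i, hYs i l]
    ring
  have h3 : (2 : k) ≠ 0 := two_ne_zero
  have h4 : (2 : k) * ∑ i, ∑ l, T i l * Y l i = 0 := by linear_combination h2
  exact (mul_eq_zero.1 h4).resolve_left h3

lemma dat_d1 (ι : Type) [Fintype ι] (e' : Basis ι k s.C') (x : s.C') (f : Dual k s.C') :
    ∑ j, s.dat.R (e' j) f ∘ₗ s.dat.R x (e'.coord j) = (12 : k) • s.dat.R x f := by
  obtain ⟨a⟩ := s.exists_adp e'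
  let _ := a.fin
  have hf := s.δ_dualMap hP hd f
  ext1 u
  have h := LinearMap.congr_fun (hP.d1 _ a.E x (s.π.dualMap f)) u
  rw [Fintype.sum_sum_type, LinearMap.add_apply, LinearMap.sum_apply, LinearMap.sum_apply] at h
  have h2 := congrArg s.ρ h
  rw [map_add] at h2
  have h3 : s.ρ (∑ i, (P.R (a.E (Sum.inl i)) (s.π.dualMap f) ∘ₗ
      P.R x (a.E.coord (Sum.inl i))) u) = 0 := by
    apply s.nd
    intro w
    rw [s.ρ_ω, map_sum, LinearMap.sum_apply, ← s.corr hP hd a x hf u w]
    refine Finset.sum_congr rfl fun i _ => ?_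
    rw [← a.del_u]
    rfl
  rw [h3, zero_add, map_sum] at h2
  rw [LinearMap.sum_apply, LinearMap.smul_apply, s.dat_R, ← map_smul, ← LinearMap.smul_apply,
    ← h2]
  refine Finset.sum_congr rfl fun j _ => ?_
  rw [LinearMap.comp_apply, LinearMap.comp_apply, s.dat_R, s.dat_R, a.coord_inr, a.inr]
  refine s.ρ_R hP hd hf ?_
  rw [Dat.R_apply, map_add, map_smul, s.B'_le, smul_zero, zero_add]
  exact hd.del_sigma hP (s.δ_dualMap hP hd _) (s.B'_le u)

/-- the trace of an operator preserving `range δ`. -/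
lemma tr_B {ι : Type} [Fintype ι] {e' : Basis ι k s.C'} (a : s.Adp e') [Fintype a.κ]
    (M : B →ₗ[k] B) (hM : ∀ η, ∃ ζ, M (δ η) = δ ζ) :
    LinearMap.trace k B M = LinearMap.trace k s.B' (s.ρ ∘ₗ M ∘ₗ s.B'.subtype) +
      ∑ i, (P.ω (δ (a.ξ i)) (M (a.u i)) + P.ω (M (δ (a.ξ i))) (a.u i)) := by
  set p1 : B →ₗ[k] B := s.B'.subtype ∘ₗ s.ρ with hp1
  set p2 : B →ₗ[k] B := ∑ i, (P.ω (δ (a.ξ i))).smulRight (a.u i) with hp2
  set p3 : B →ₗ[k] B := LinearMap.id - p1 - p2 with hp3
  have hp2a : ∀ w, p2 w = ∑ i, P.ω (δ (a.ξ i)) w • a.u i := by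
    intro w
    rw [hp2, LinearMap.sum_apply]
    rfl
  -- values of `p3`
  have h1 : ∀ w, ∃ ζ, p3 w = δ ζ := by
    intro w
    have h2 : del (p3 w) = 0 := by
      have h3 : del (p1 w) = 0 := s.B'_le _
      have h4 : del (p2 w) = del w := by
        rw [hp2a, map_sum, a.del_eq w]
        refine Finset.sum_congr rfl fun i _ => ?_
        rw [map_smul, hd.adj]
      rw [hp3, LinearMap.sub_apply, LinearMap.sub_apply, map_sub, map_sub, h3, h4,
        LinearMap.id_apply, sub_zero, sub_self]
    have h5 : s.ρ (p3 w) = 0 := by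
      have h3 : s.ρ (p1 w) = s.ρ w := s.ρ_id _
      have h4 : s.ρ (p2 w) = 0 := by
        rw [hp2a, map_sum]
        refine Finset.sum_eq_zero fun i _ => ?_
        rw [map_smul, a.ρ_u, smul_zero]
      rw [hp3, LinearMap.sub_apply, LinearMap.sub_apply, map_sub, map_sub, h3, h4,
        LinearMap.id_apply, sub_self, sub_zero]
    obtain ⟨ζ, hζ⟩ := s.ρ_ker _ h2 h5
    exact ⟨ζ, hζ.symm⟩
  have h2 : ∀ ζ, p3 (δ ζ) = δ ζ := by
    intro ζ
    have h3 : p1 (δ ζ) = 0 := by
      rw [hp1, LinearMap.comp_apply, s.ρ_δ hd, map_zero]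
    have h4 : p2 (δ ζ) = 0 := by
      rw [hp2a]
      refine Finset.sum_eq_zero fun i _ => ?_
      rw [← hd.adj, hd.sq, map_zero, zero_smul]
    rw [hp3, LinearMap.sub_apply, LinearMap.sub_apply, h3, h4, LinearMap.id_apply, sub_zero,
      sub_zero]
  -- boundaries are combinations of the `δ (ξ i)`
  have h3 : ∀ ζ, δ ζ = ∑ i, P.ω (δ ζ) (a.u i) • δ (a.ξ i) := by
    intro ζ
    have h4 := a.E.sum_dual_apply_smul_coord ζ
    conv_lhs => rw [← h4]
    rw [Fintype.sum_sum_type, map_add, map_sum, map_sum]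
    have h5 : ∑ j, δ (ζ (a.E (Sum.inr j)) • a.E.coord (Sum.inr j)) = 0 := by
      refine Finset.sum_eq_zero fun j _ => ?_
      rw [map_smul, a.coord_inr, s.δ_dualMap hP hd, smul_zero]
    rw [h5, add_zero]
    refine Finset.sum_congr rfl fun i _ => ?_
    rw [map_smul, ← hd.adj, a.del_u]
    rfl
  have h4 : p3 = ∑ i, ((P.ω.flip (a.u i)) ∘ₗ p3).smulRight (δ (a.ξ i)) := by
    ext w
    rw [LinearMap.sum_apply]
    obtain ⟨ζ, hζ⟩ := h1 w
    simp only [LinearMap.smulRight_apply, LinearMap.comp_apply, LinearMap.flip_apply, hζ]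
    exact h3 ζ
  have hid : M = M ∘ₗ p1 + M ∘ₗ p2 + M ∘ₗ p3 := by
    ext w
    simp only [LinearMap.add_apply, LinearMap.comp_apply, hp3, LinearMap.sub_apply,
      LinearMap.id_apply, map_sub]
    abel
  have t1 : LinearMap.trace k B (M ∘ₗ p1) =
      LinearMap.trace k s.B' (s.ρ ∘ₗ M ∘ₗ s.B'.subtype) := by
    rw [hp1, ← LinearMap.comp_assoc, LinearMap.trace_comp_comm']
  have t2 : LinearMap.trace k B (M ∘ₗ p2) = ∑ i, P.ω (δ (a.ξ i)) (M (a.u i)) := by
    rw [hp2, comp_sum', map_sum]
    refine Finset.sum_congr rfl fun i _ => ?_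
    have h5 : M ∘ₗ (P.ω (δ (a.ξ i))).smulRight (a.u i) =
        (P.ω (δ (a.ξ i))).smulRight (M (a.u i)) := by
      ext w
      simp
    rw [h5, LinearMap.trace_smulRight]
  have t3 : LinearMap.trace k B (M ∘ₗ p3) = ∑ i, P.ω (M (δ (a.ξ i))) (a.u i) := by
    conv_lhs => rw [h4, comp_sum', map_sum]
    refine Finset.sum_congr rfl fun i _ => ?_
    have h5 : M ∘ₗ ((P.ω.flip (a.u i)) ∘ₗ p3).smulRight (δ (a.ξ i)) =
        ((P.ω.flip (a.u i)) ∘ₗ p3).smulRight (M (δ (a.ξ i))) := by
      ext w
      simp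
    rw [h5, LinearMap.trace_smulRight, LinearMap.comp_apply, LinearMap.flip_apply]
    obtain ⟨ζ, hζ⟩ := hM (a.ξ i)
    rw [hζ, h2]
  conv_lhs => rw [hid, map_add, map_add, t1, t2, t3]
  rw [Finset.sum_add_distrib]
  ring

lemma dat_d0 (x y : s.C') (f g : Dual k s.C') :
    LinearMap.trace k s.C' (s.dat.T x f ∘ₗ s.dat.T y g) -
      2⁻¹ * LinearMap.trace k s.B' (s.dat.σ x f ∘ₗ s.dat.σ y g) =
      12 * g (s.dat.T x f y) := by
  set e' := Module.finBasis k s.C' with he'
  obtain ⟨a⟩ := s.exists_adp e'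
  let _ := a.fin
  have hf := s.δ_dualMap hP hd f
  have hg := s.δ_dualMap hP hd g
  set F := s.π.dualMap f with hF
  set G := s.π.dualMap g with hG
  have h := hP.d0 x y F G
  -- the trace over `I`
  set N : k := ∑ i, P.ω (δ (a.ξ i)) (P.σ x F (P.σ y G (a.u i))) with hN
  have key : ∀ {ξ η : Dual k C}, δ ξ = 0 → δ η = 0 → ∀ (x y : C),
      ∑ i, P.ω (δ (a.ξ i)) (P.σ x ξ (P.σ y η (a.u i))) =
      ∑ i, ∑ l, P.ω (δ (a.ξ l)) (P.σ y η (a.u i)) * P.ω (δ (a.ξ i)) (P.σ x ξ (a.u l)) := by
    intro ξ η hξ hη x y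
    refine Finset.sum_congr rfl fun i _ => ?_
    rw [← hd.adj, ← hd.T_del hP hξ, a.del_eq (P.σ y η (a.u i)), map_sum, map_sum]
    refine Finset.sum_congr rfl fun l _ => ?_
    rw [map_smul, map_smul, hd.T_del hP hξ, ← hd.adj, ← hd.adj]
    rfl
  have hN2 : ∑ i, P.ω (δ (a.ξ i)) (P.σ y G (P.σ x F (a.u i))) = N := by
    rw [hN, key hf hg, key hg hf, Finset.sum_comm]
    refine Finset.sum_congr rfl fun i _ => Finset.sum_congr rfl fun l _ => ?_
    ring
  -- the trace over `C`
  have t1 : LinearMap.trace k C (P.T x F ∘ₗ P.T y G) =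
      LinearMap.trace k s.C' (s.dat.T x f ∘ₗ s.dat.T y g) + N := by
    rw [trace_coord a.E, trace_coord e', Fintype.sum_sum_type, add_comm]
    congr 1
    · refine Finset.sum_congr rfl fun j _ => ?_
      rw [LinearMap.comp_apply, LinearMap.comp_apply, s.dat_T, s.dat_T, a.coord_inr, a.inr,
        LinearMap.dualMap_apply, s.π_T_π hP hd hf]
    · refine Finset.sum_congr rfl fun i _ => ?_
      rw [LinearMap.comp_apply, ← a.del_u, hd.T_del hP hg, hd.T_del hP hf, ← hd.adj]
      rfl
  -- the trace over `B`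
  have t2 : LinearMap.trace k B (P.σ x F ∘ₗ P.σ y G) =
      LinearMap.trace k s.B' (s.dat.σ x f ∘ₗ s.dat.σ y g) + 2 * N := by
    rw [s.tr_B hP hd a (P.σ x F ∘ₗ P.σ y G)]
    · congr 1
      · congr 1
        ext1 u
        rw [LinearMap.comp_apply, LinearMap.comp_apply, LinearMap.comp_apply,
          LinearMap.comp_apply, s.dat_σ, s.dat_σ, Submodule.subtype_apply]
        exact (s.ρ_sigma hP hd hf (hd.del_sigma hP hg (s.B'_le u))).symm
      · rw [Finset.sum_add_distrib, two_mul]
        congr 1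
        rw [← hN2]
        refine Finset.sum_congr rfl fun i _ => ?_
        rw [LinearMap.comp_apply, hP.sp', hP.sp', neg_neg]
    · intro η
      refine ⟨(η ∘ₗ P.T y G) ∘ₗ P.T x F, ?_⟩
      rw [LinearMap.comp_apply, hd.sigma_delta hP hg, map_neg, hd.sigma_delta hP hf, neg_neg]
  rw [t1, t2] at h
  rw [s.dat_T]
  have h2 : G (P.T x F y) = g (s.π (P.T x F y)) := rfl
  rw [← h2, ← h]
  have h3 : (2 : k)⁻¹ * (2 * N) = N := by
    rw [← mul_assoc, inv_mul_cancel₀ two_ne_zero, one_mul]
  rw [mul_add, h3]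
  ring

lemma finrank_range : finrank k (LinearMap.range δ) = finrank k (LinearMap.range del) := by
  have h1 : P.ω ∘ₗ δ = del.dualMap := by
    ext ξ u
    rw [LinearMap.comp_apply, ← hd.adj]
    rfl
  rw [← LinearMap.finrank_range_dualMap_eq_finrank_range del, ← h1, LinearMap.range_comp]
  have hinj : Function.Injective P.ω := by
    rw [injective_iff_map_eq_zero]
    intro u hu
    exact hP.nondeg u fun w => by rw [hu, LinearMap.zero_apply]
  exact (Submodule.equivMapOfInjective P.ω hinj _).finrank_eq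

lemma dat_dim : finrank k s.B' = 56 + 2 * finrank k s.C' := by
  have h1 := LinearMap.finrank_range_add_finrank_ker del
  have h2 := Submodule.finrank_add_eq_of_isCompl s.compl
  have h3 := finrank_range hP hd
  have h4 : finrank k s.B' + finrank k (LinearMap.range δ) = finrank k (LinearMap.ker del) := by
    set f : LinearMap.ker del →ₗ[k] s.B' := s.ρ ∘ₗ (LinearMap.ker del).subtype with hf
    have h5 := LinearMap.finrank_range_add_finrank_ker f
    have h6 : LinearMap.range f = ⊤ := by
      rw [LinearMap.range_eq_top]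
      intro w
      exact ⟨⟨w, LinearMap.mem_ker.2 (s.B'_le w)⟩, s.ρ_id w⟩
    have h7 : (LinearMap.ker f).map (LinearMap.ker del).subtype = LinearMap.range δ := by
      ext u
      constructor
      · rintro ⟨⟨v, hv⟩, hv2, rfl⟩
        obtain ⟨ξ, hξ⟩ := s.ρ_ker v (LinearMap.mem_ker.1 hv) hv2
        exact ⟨ξ, hξ⟩
      · rintro ⟨ξ, rfl⟩
        exact ⟨⟨δ ξ, LinearMap.mem_ker.2 (hd.sq ξ)⟩, s.ρ_δ hd ξ, rfl⟩
    rw [h6, finrank_top] at h5
    rw [← h7, Submodule.finrank_map_subtype_eq]
    exact h5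
  have h5 := hP.dim
  omega

theorem isPkg : s.dat.IsPkg where
  alt u := hP.alt _
  nondeg u h := s.nd u h
  sp x f u w := by
    rw [s.dat_ω, s.dat_ω, s.dat_σ, s.dat_σ, s.ρ_ω, hP.anti u, s.ρ_ω, ← hP.anti]
    exact hP.sp _ _ _ _
  S_alt x := by
    ext f
    rw [s.dat_S, hP.S_alt]
    simp
  S_skew x y f g := by
    rw [s.dat_S, s.dat_S]
    exact hP.S_skew x y (s.π.dualMap f) (s.π.dualMap g)
  dim := s.dat_dim hP hd
  d1 ι _ e' x f := s.dat_d1 hP hd ι e' x f
  d2 ι _ e' x y := s.dat_d2 hP hd ι e' x y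
  d0 x y f g := s.dat_d0 hP hd x y f g

variable {ε : C} (hε : P.IsEps ε)
include hε

lemma dat_e2 (x y : s.C') : ∃ z, s.dat.S x y = s.dat.S (s.π ε) z := by
  obtain ⟨z, hz⟩ := hε.e2 x y
  refine ⟨s.π z, ?_⟩
  ext1 f
  rw [s.dat_S, s.dat_S, hz, s.π_S_π hP hd (s.δ_dualMap hP hd f),
    s.π_S_π' hP hd (s.δ_dualMap hP hd f)]

lemma S_range (x : C) (u : B) : ∃ v, P.S x (del u) = P.S ε (del v) := by
  obtain ⟨a, ha⟩ := hε.e3 x u
  exact ⟨a, hd.S_del hP ha⟩

lemma dat_e1 (z : s.C') (h : s.dat.S (s.π ε) z = 0) : ∃ c : k, z = c • s.π ε := by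
  set e' := Module.finBasis k s.C' with he'
  obtain ⟨a⟩ := s.exists_adp e'
  let _ := a.fin
  -- `M = S ε z` maps cycles to boundaries
  have h1 : ∀ f : Dual k s.C', ∃ t, P.S ε z (s.π.dualMap f) = del t := by
    intro f
    have h2 := LinearMap.congr_fun h f
    rw [s.dat_S, s.π_S_π hP hd (s.δ_dualMap hP hd f), LinearMap.zero_apply] at h2
    obtain ⟨t, ht⟩ := s.π_ker _ h2
    exact ⟨t, ht.symm⟩
  have h2 : ∀ i : a.κ ⊕ Fin (finrank k s.C'), ∃ v,
      P.S (P.S ε z (a.E.coord i)) (a.E i) = P.S ε (del v) := by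
    rintro (i | j)
    · rw [← a.del_u]
      exact S_range hP hd hε _ _
    · rw [a.coord_inr]
      obtain ⟨t, ht⟩ := h1 (e'.coord j)
      rw [ht, hP.S_anti]
      obtain ⟨v, hv⟩ := S_range hP hd hε (a.E (Sum.inr j)) t
      exact ⟨-v, by rw [hv, map_neg, map_neg]⟩
  choose v hv using h2
  have h3 := hP.d2 _ a.E ε z
  simp only [hv] at h3
  rw [← map_sum, ← map_sum] at h3
  have h4 : P.S ε ((24 : k) • (z : C) - del (∑ i, v i)) = 0 := by
    rw [map_sub, h3, map_smul, sub_self]
  obtain ⟨c, hc⟩ := hε.e1 _ h4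
  have h5 := congrArg s.π hc
  rw [map_sub, map_smul, s.π_del, s.π_id, sub_zero, map_smul] at h5
  refine ⟨24⁻¹ * c, ?_⟩
  rw [mul_smul, ← h5, smul_smul, inv_mul_cancel₀ (by norm_num), one_smul]

end pkg

end Spl

/-- CF3: the homology package. -/
theorem inj_of_ne {P : Dat k C B} (hP : P.IsPkg) {ε : C} (hε : P.IsEps ε)
    {δ : Dual k C →ₗ[k] B} {del : B →ₗ[k] C} (hd : P.IsDer δ del) (hne : δ ≠ 0) :
    Function.Injective δ := by
  by_cases hmem : ε ∈ LinearMap.range del
  · exact inj_of_mem hP hε hd hmem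
  obtain ⟨s⟩ := exists_spl hP hd
  exfalso
  have hP' := s.isPkg hP hd
  have hne' : s.π ε ≠ 0 := fun h => hmem (s.π_ker ε h)
  have h12 : finrank k s.C' = 12 :=
    (two_or_twelve hP' hne' (s.dat_e1 hP hd hε) (s.dat_e2 hP hd hε)).resolve_left (ne_two hP')
  have h12' : finrank k C = 12 :=
    (two_or_twelve hP hε.ne hε.e1 hε.e2).resolve_left (ne_two hP)
  have h1 := Submodule.finrank_add_eq_of_isCompl s.compl
  have h2 : finrank k (LinearMap.range del) = 0 := by omega
  have h3 : LinearMap.range del = ⊥ := Submodule.finrank_eq_zero.1 h2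
  apply hne
  ext1 ξ
  rw [LinearMap.zero_apply, hd.ker_iff hP]
  intro u
  have h4 : del u ∈ LinearMap.range del := ⟨u, rfl⟩
  rw [h3, Submodule.mem_bot] at h4
  rw [h4, map_zero]

end LicciCF

end

section

/-! Closed fibre linear algebra for the E_8 case of the licci question (codimension 6, 8
generators).  `no_closed_fibre`: there is no closed fibre with ranks 12 | 80 | 12. -/

namespace Pool.Agent.Licci.Six

open Module

universe u

section Involutions

variable {k : Type*} [Field k]

/-- One halving step: `J` an involution and `S` invertible with `S J = - J S`. -/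
theorem halving [CharZero k] (V : Type u) [AddCommGroup V] [Module k V] [FiniteDimensional k V]
    (J S : End k V) (hJ : J * J = 1) (hS : Function.Injective S) (hSJ : S * J = -(J * S)) :
    finrank k V = 2 * finrank k (LinearMap.ker (J - 1)) := by
  set P : Submodule k V := LinearMap.ker (J - 1) with hP
  set M : Submodule k V := LinearMap.ker (J + 1) with hM
  have memP : ∀ v, v ∈ P ↔ J v = v := by
    intro v; rw [hP, LinearMap.mem_ker, LinearMap.sub_apply, Module.End.one_apply, sub_eq_zero]
  have memM : ∀ v, v ∈ M ↔ J v = -v := by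
    intro v
    rw [hM, LinearMap.mem_ker, LinearMap.add_apply, Module.End.one_apply, add_eq_zero_iff_eq_neg]
  have hJJ : ∀ v, J (J v) = v := by
    intro v
    have := congrArg (fun f : End k V => f v) hJ
    simpa using this
  have hcompl : IsCompl P M := by
    refine IsCompl.of_eq ?_ ?_
    · rw [Submodule.eq_bot_iff]
      intro v hv
      have h1 := (memP v).1 hv.1
      have h2 := (memM v).1 hv.2
      rw [h1] at h2
      have h3 : (2 : k) • v = 0 := by
        rw [two_smul]
        nth_rewrite 1 [h2]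
        simp
      rcases smul_eq_zero.1 h3 with h | h
      · exact absurd h two_ne_zero
      · exact h
    · rw [Submodule.eq_top_iff']
      intro v
      rw [Submodule.mem_sup]
      refine ⟨(2 : k)⁻¹ • (v + J v), (memP _).2 ?_, (2 : k)⁻¹ • (v - J v), (memM _).2 ?_, ?_⟩
      · rw [map_smul, map_add, hJJ, add_comm]
      · rw [map_smul, map_sub, hJJ, ← smul_neg, neg_sub]
      · rw [← smul_add]
        have : v + J v + (v - J v) = (2 : k) • v := by rw [two_smul]; abel
        rw [this, smul_smul, inv_mul_cancel₀ two_ne_zero, one_smul]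
  have hSP : ∀ v, v ∈ P → S v ∈ M := by
    intro v hv
    rw [memM]
    have h := congrArg (fun f : End k V => f v) hSJ
    simp only [Module.End.mul_apply, LinearMap.neg_apply] at h
    rw [(memP v).1 hv] at h
    exact neg_eq_iff_eq_neg.1 h.symm
  have hSM : ∀ v, v ∈ M → S v ∈ P := by
    intro v hv
    rw [memP]
    have h := congrArg (fun f : End k V => f v) hSJ
    simp only [Module.End.mul_apply, LinearMap.neg_apply] at h
    rw [(memM v).1 hv, map_neg] at h
    exact (neg_inj.1 h).symm
  have h1 : finrank k P ≤ finrank k M :=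
    LinearMap.finrank_le_finrank_of_injective (f := S.restrict hSP)
      (fun x y hxy => Subtype.ext (hS (congrArg Subtype.val hxy)))
  have h2 : finrank k M ≤ finrank k P :=
    LinearMap.finrank_le_finrank_of_injective (f := S.restrict hSM)
      (fun x y hxy => Subtype.ext (hS (congrArg Subtype.val hxy)))
  have h3 := Submodule.finrank_add_eq_of_isCompl hcompl
  omega

/-- `2 n` anticommuting operators with nonzero scalar squares force `2 ^ n` to divide the
dimension (algebraically closed field). -/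
theorem two_pow_dvd_closed [CharZero k] [IsAlgClosed k] : ∀ (n : ℕ) (V : Type u)
    [AddCommGroup V] [Module k V] [FiniteDimensional k V] (S : Fin (2 * n) → End k V)
    (a : Fin (2 * n) → k), (∀ i, a i ≠ 0) → (∀ i, S i * S i = a i • (1 : End k V)) →
    (∀ i j, i ≠ j → S i * S j = -(S j * S i)) → 2 ^ n ∣ finrank k V
  | 0, V, _, _, _, S, a, _, _, _ => by simp
  | n + 1, V, _, _, _, S, a, ha, hsq, hanti => by
    obtain ⟨r, hr⟩ := IsAlgClosed.exists_pow_nat_eq (-(a 0 * a 1)) (n := 2) (by norm_num)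
    have hr0 : r ≠ 0 := by
      intro h
      rw [h] at hr
      have : a 0 * a 1 = 0 := by
        have h2 : (0 : k) ^ 2 = 0 := by norm_num
        rw [h2] at hr
        linear_combination hr
      exact (mul_ne_zero (ha 0) (ha 1)) this
    have h01 : (0 : Fin (2 * (n + 1))) ≠ 1 := by
      intro h
      have := congrArg Fin.val h
      simp at this
    set J : End k V := r⁻¹ • (S 0 * S 1) with hJdef
    have hJ : J * J = 1 := by
      have e1 : S 0 * S 1 * (S 0 * S 1) = -((a 0 * a 1) • (1 : End k V)) := by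
        have : S 0 * S 1 * (S 0 * S 1) = S 0 * (S 1 * S 0) * S 1 := by noncomm_ring
        rw [this, hanti 1 0 (Ne.symm h01)]
        have : S 0 * -(S 0 * S 1) * S 1 = -((S 0 * S 0) * (S 1 * S 1)) := by noncomm_ring
        rw [this, hsq, hsq, smul_mul_smul_comm, one_mul]
      rw [hJdef, smul_mul_smul_comm, e1, ← neg_smul, smul_smul, ← hr]
      have : r⁻¹ * r⁻¹ * r ^ 2 = 1 := by field_simp
      rw [this, one_smul]
    have hSinj : Function.Injective (S 0) := by
      intro x y hxy
      have := congrArg (S 0) hxy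
      have e : ∀ z, S 0 (S 0 z) = a 0 • z := by
        intro z
        have := congrArg (fun f : End k V => f z) (hsq 0)
        simpa using this
      rw [e, e] at this
      exact smul_right_injective V (ha 0) this
    have hSJ : S 0 * J = -(J * S 0) := by
      rw [hJdef, mul_smul_comm, smul_mul_assoc, ← smul_neg]
      congr 1
      have : S 0 * S 1 * S 0 = S 0 * (S 1 * S 0) := by noncomm_ring
      rw [this, hanti 1 0 (Ne.symm h01)]
      noncomm_ring
    have hhalf := halving V J (S 0) hJ hSinj hSJ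
    set P : Submodule k V := LinearMap.ker (J - 1) with hP
    have hcomm : ∀ i : Fin (2 * n), S i.succ.succ * J = J * S i.succ.succ := by
      intro i
      have hi0 : (i.succ.succ : Fin (2 * n + 2)) ≠ 0 := Fin.succ_ne_zero _
      have hi1 : (i.succ.succ : Fin (2 * n + 2)) ≠ 1 := by
        intro h
        have := congrArg Fin.val h
        simp at this
      rw [hJdef, mul_smul_comm, smul_mul_assoc]
      congr 1
      have e1 := hanti i.succ.succ 0 hi0
      have e2 := hanti i.succ.succ 1 hi1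
      calc S i.succ.succ * (S 0 * S 1) = (S i.succ.succ * S 0) * S 1 := by noncomm_ring
        _ = -(S 0 * (S i.succ.succ * S 1)) := by rw [e1]; noncomm_ring
        _ = S 0 * S 1 * S i.succ.succ := by rw [e2]; noncomm_ring
    have hmap : ∀ i : Fin (2 * n), ∀ v ∈ P, S i.succ.succ v ∈ P := by
      intro i v hv
      rw [hP, LinearMap.mem_ker, LinearMap.sub_apply, Module.End.one_apply, sub_eq_zero] at hv ⊢
      have := congrArg (fun f : End k V => f v) (hcomm i)
      simp only [Module.End.mul_apply] at this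
      rw [← this, hv]
    have ih := two_pow_dvd_closed n P (fun i => (S i.succ.succ).restrict (hmap i))
      (fun i => a i.succ.succ) (fun i => ha _)
      (fun i => by
        ext v
        have := congrArg (fun f : End k V => f v) (hsq i.succ.succ)
        simpa using this)
      (fun i j hij => by
        ext v
        have hne : (i.succ.succ : Fin (2 * n + 2)) ≠ j.succ.succ := by
          intro h
          exact hij (Fin.succ_injective _ (Fin.succ_injective _ h))
        have := congrArg (fun f : End k V => f v) (hanti i.succ.succ j.succ.succ hne)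
        simpa using this)
    rw [hhalf, pow_succ, mul_comm]
    exact Nat.mul_dvd_mul_left 2 ih

/-- The same over any field of characteristic zero. -/
theorem two_pow_dvd [CharZero k] (n : ℕ) (V : Type u)
    [AddCommGroup V] [Module k V] [FiniteDimensional k V] (S : Fin (2 * n) → End k V)
    (a : Fin (2 * n) → k) (ha : ∀ i, a i ≠ 0) (hsq : ∀ i, S i * S i = a i • (1 : End k V))
    (hanti : ∀ i j, i ≠ j → S i * S j = -(S j * S i)) : 2 ^ n ∣ finrank k V := by
  let K := AlgebraicClosure k
  have : CharZero K := charZero_of_injective_algebraMap (algebraMap k K).injective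
  have hd := two_pow_dvd_closed (k := K) n (TensorProduct k K V)
    (fun i => (S i).baseChange K) (fun i => algebraMap k K (a i))
    (fun i => by
      intro h
      exact ha i ((map_eq_zero _).1 h))
    (fun i => by
      have h := congrArg (LinearMap.baseChange K) (hsq i)
      rw [LinearMap.baseChange_mul] at h
      rw [h, LinearMap.baseChange_smul]
      ext v
      simp [Algebra.smul_def, TensorProduct.smul_tmul'])
    (fun i j hij => by
      have h := congrArg (LinearMap.baseChange K) (hanti i j hij)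
      rw [LinearMap.baseChange_mul, LinearMap.baseChange_neg, LinearMap.baseChange_mul] at h
      exact h)
  rwa [Module.finrank_baseChange] at hd

end Involutions

section Main

variable {k : Type*} [Field k] [CharZero k]
variable {B C : Type*} [AddCommGroup B] [Module k B] [FiniteDimensional k B]
  [AddCommGroup C] [Module k C] [FiniteDimensional k C]

/-- `sc om T s`: the operator `T` is `s` plus an element of the symplectic Lie algebra. -/
def sc (om : B →ₗ[k] B →ₗ[k] k) (T : End k B) (s : k) : Prop :=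
  ∀ b b', om (T b) b' + om b (T b') = 2 * s * om b b'

/-- The operators `L (c, g) = g c / 12 + Lam (c, g)`. -/
noncomputable def Lop (Lam : C →ₗ[k] Dual k C →ₗ[k] End k B) (c : C) (g : Dual k C) : End k B :=
  (g c / 12) • (1 : End k B) + Lam c g

variable {om : B →ₗ[k] B →ₗ[k] k} {Lam : C →ₗ[k] Dual k C →ₗ[k] End k B}

theorem sc_unique (hnd : ∀ x, (∀ y, om x y = 0) → x = 0) [Nontrivial B]
    {T : End k B} {s s' : k} (h : sc om T s) (h' : sc om T s') : s = s' := by
  obtain ⟨x, hx⟩ := exists_ne (0 : B)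
  have : ∃ y, om x y ≠ 0 := by
    by_contra hcon
    push Not at hcon
    exact hx (hnd x hcon)
  obtain ⟨y, hy⟩ := this
  have e := (h x y).symm.trans (h' x y)
  have e2 := mul_right_cancel₀ hy e
  exact mul_left_cancel₀ two_ne_zero e2

theorem sc_Lop (hanti : ∀ x y, om x y = -om y x)
    (sym : ∀ c g b b', om (Lam c g b) b' = om (Lam c g b') b) (c : C) (g : Dual k C) :
    sc om (Lop Lam c g) (g c / 12) := by
  intro b b'
  simp only [Lop, LinearMap.add_apply, LinearMap.smul_apply, Module.End.one_apply, map_add,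
    map_smul, smul_eq_mul]
  have h1 := sym c g b b'
  have h2 := hanti b (Lam c g b')
  rw [h2, ← h1]
  ring

/-- If `T' T = 1` with `T, T'` in `k + sp`, and the scalar part `s` of `T` is nonzero, then
`(T - s) ^ 2` is a scalar. -/
theorem square_scalar (hnd : ∀ x, (∀ y, om x y = 0) → x = 0) (hanti : ∀ x y, om x y = -om y x)
    [Nontrivial B]
    {T T' : End k B} {s s' : k} (h : sc om T s) (h' : sc om T' s') (hTT : T' * T = 1)
    (hs : s ≠ 0) : ∃ q : k, (T - s • 1) * (T - s • 1) = q • (1 : End k B) := by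
  have hTT' : T * T' = 1 := mul_eq_one_comm.1 hTT
  -- adjoint relation: (2 s - T) (2 s' - T') = 1
  have hadj : ((2 * s) • (1 : End k B) - T) * ((2 * s') • (1 : End k B) - T') = 1 := by
    have key : ∀ x y, om (T' (T x)) y =
        om x (((2 * s) • (1 : End k B) - T) (((2 * s') • (1 : End k B) - T') y)) := by
      intro x y
      have e1 := h' (T x) y
      have e2 := h x (((2 * s') • (1 : End k B) - T') y)
      simp only [LinearMap.sub_apply, LinearMap.smul_apply, Module.End.one_apply, map_sub,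
        map_smul, smul_eq_mul] at e1 e2 ⊢
      linear_combination e1 + e2
    apply LinearMap.ext
    intro y
    rw [← sub_eq_zero]
    apply hnd
    intro x
    have e := key x y
    have e0 : T' (T x) = x := by
      have := congrArg (fun f : End k B => f x) hTT
      simpa using this
    rw [e0] at e
    rw [hanti, map_sub, Module.End.mul_apply, Module.End.one_apply, ← e, sub_self, neg_zero]
  have hexp : s • T' = (2 * s * s') • (1 : End k B) - s' • T := by
    have e : ((2 * s) • (1 : End k B) - T) * ((2 * s') • (1 : End k B) - T') =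
        (4 * s * s') • (1 : End k B) - (2 * s) • T' - (2 * s') • T + T * T' := by
      rw [sub_mul, mul_sub, mul_sub, smul_mul_smul_comm, one_mul, smul_one_mul, mul_smul_one]
      have : 2 * s * (2 * s') = 4 * s * s' := by ring
      rw [this]
      abel
    rw [e, hTT'] at hadj
    have e2 : (4 * s * s') • (1 : End k B) - (2 * s) • T' - (2 * s') • T = 0 := by
      have := hadj
      rwa [add_eq_right] at this
    have e3 : (2 : k) • (s • T') = (2 : k) • ((2 * s * s') • (1 : End k B) - s' • T) := by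
      rw [smul_sub, smul_smul, smul_smul, smul_smul]
      have : (2 : k) * (2 * s * s') = 4 * s * s' := by ring
      rw [this]
      rw [sub_sub, sub_eq_zero] at e2
      rw [e2]
      abel
    exact smul_right_injective _ (two_ne_zero (α := k)) e3
  -- multiply by T on the right
  have hmul : s • (1 : End k B) = s' • (((2 * s) • (1 : End k B) - T) * T) := by
    have e : s • T' * T = ((2 * s * s') • (1 : End k B) - s' • T) * T := by rw [hexp]
    rw [smul_mul_assoc, hTT, sub_mul, smul_one_mul, smul_mul_assoc] at e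
    rw [e, sub_mul, smul_sub, smul_one_mul, smul_smul]
    have : 2 * s * s' = s' * (2 * s) := by ring
    rw [this]
  have hs' : s' ≠ 0 := by
    intro h0
    rw [h0, zero_smul] at hmul
    rcases smul_eq_zero.1 hmul with h | h
    · exact hs h
    · exact one_ne_zero h
  refine ⟨s ^ 2 - s / s', ?_⟩
  have e4 : ((2 * s) • (1 : End k B) - T) * T = (s / s') • (1 : End k B) := by
    have e := congrArg (fun f => s'⁻¹ • f) hmul
    simp only [smul_smul, inv_mul_cancel₀ hs', one_smul] at e
    rw [← e]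
    congr 1
    ring
  rw [sub_mul, smul_one_mul] at e4
  rw [sub_mul, mul_sub, mul_sub, mul_smul_one, smul_one_mul, smul_mul_smul_comm, one_mul,
    sub_smul, ← e4]
  have : (2 * s) • T = s • T + s • T := by rw [two_mul, add_smul]
  rw [this, pow_two]
  abel

/-- Clifford structure on the orthogonal complement of a vector in a nondegenerate space. -/
theorem clifford_end (hC : finrank k C = 12) (N : LinearMap.BilinForm k C) (hNs : N.IsSymm)
    (hNn : N.Nondegenerate) (x1 : C) (hx : N x1 x1 ≠ 0) (S : C → End k B)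
    (hS : ∀ c c', N x1 c = 0 → N x1 c' = 0 →
      S c * S c' + S c' * S c = (-(2 * N c c')) • (1 : End k B)) : 32 ∣ finrank k B := by
  classical
  set H : Submodule k C := N.orthogonal (k ∙ x1) with hH
  have hmem : ∀ c, c ∈ H → N x1 c = 0 := by
    intro c hc
    exact hc x1 (Submodule.mem_span_singleton_self x1)
  have hfr : finrank k H = 11 := by
    have h1 := Submodule.finrank_add_eq_of_isCompl
      (LinearMap.BilinForm.isCompl_span_singleton_orthogonal hx)
    have hx0 : x1 ≠ 0 := by
      rintro rfl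
      exact hx (by simp)
    rw [finrank_span_singleton hx0, hC] at h1
    have h2 : 1 + finrank k H = 12 := h1
    omega
  have hnd := LinearMap.BilinForm.restrict_nondegenerate_orthogonal_spanSingleton N hNn
    hNs.isRefl hx
  have : Invertible (2 : k) := invertibleOfNonzero two_ne_zero
  obtain ⟨v0, hv0⟩ := LinearMap.BilinForm.exists_orthogonal_basis
    (B := N.restrict H) ⟨fun x y => hNs.eq (x : C) (y : C)⟩
  let e : Fin (finrank k H) ≃ Fin 11 := finCongr hfr
  have hvo : ∀ i j, i ≠ j → N (v0 i : C) (v0 j : C) = 0 := fun i j hij => hv0 hij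
  have hvn : ∀ i, N (v0 i : C) (v0 i : C) ≠ 0 := fun i =>
    LinearMap.BilinForm.iIsOrtho.not_isOrtho_basis_self_of_nondegenerate hv0 hnd i
  let w : Fin (2 * 5) → C := fun i => (v0 (e.symm (Fin.castLE (by norm_num) i)) : C)
  have hinj : ∀ i j : Fin (2 * 5), i ≠ j →
      e.symm (Fin.castLE (by norm_num) i) ≠ e.symm (Fin.castLE (by norm_num) j) := by
    intro i j hij h
    have h2 := e.symm.injective h
    exact hij (Fin.castLE_injective _ h2)
  have hwH : ∀ i, N x1 (w i) = 0 := fun i => hmem _ (v0 _).2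
  have h := two_pow_dvd 5 B (fun i => S (w i)) (fun i => -(N (w i) (w i)))
    (fun i => neg_ne_zero.2 (hvn _))
    (fun i => by
      have h1 := hS (w i) (w i) (hwH i) (hwH i)
      have h2 : (2 : k) • (S (w i) * S (w i)) = (2 : k) • ((-(N (w i) (w i))) • (1 : End k B)) := by
        rw [two_smul, h1, smul_smul]
        congr 1
        ring
      exact smul_right_injective _ (two_ne_zero (α := k)) h2)
    (fun i j hij => by
      have h1 := hS (w i) (w j) (hwH i) (hwH j)
      have h2 : N (w i) (w j) = 0 := hvo _ _ (hinj i j hij)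
      rw [h2, mul_zero, neg_zero, zero_smul] at h1
      exact eq_neg_of_add_eq_zero_left h1)
  simpa using h

/-- **The closed fibre with ranks `12 | 80 | 12` does not exist.** -/
theorem no_closed_fibre (hB : finrank k B = 80) (hC : finrank k C = 12)
    (om : B →ₗ[k] B →ₗ[k] k) (halt : ∀ x, om x x = 0)
    (hnd : ∀ x, (∀ y, om x y = 0) → x = 0)
    (Lam : C →ₗ[k] Dual k C →ₗ[k] End k B)
    (sym : ∀ c g b b', om (Lam c g b) b' = om (Lam c g b') b)
    (Om : Set C) (x1 : C) (hx1 : x1 ∈ Om)
    (hopen : ∀ c : C, {t : k | x1 + t • c ∉ Om}.Finite)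
    (hR : ∀ x ∈ Om, ∀ c : C, ∃ R : End k B, ∀ g : Dual k C, Lop Lam c g = Lop Lam x g * R)
    (hg : ∀ x ∈ Om, ∃ g : Dual k C, g x = 12 ∧ Lam x g = 0) : False := by
  have hanti : ∀ x y, om x y = -om y x := by
    intro x y
    have h := halt (x + y)
    simp only [map_add, LinearMap.add_apply, halt, zero_add, add_zero] at h
    exact eq_neg_of_add_eq_zero_right h
  have : Nontrivial B := Module.nontrivial_of_finrank_pos (R := k) (by rw [hB]; norm_num)
  choose! gx hgx1 hgx2 using hg
  -- basic factorisation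
  have hL1 : ∀ x ∈ Om, Lop Lam x (gx x) = 1 := by
    intro x hx
    rw [Lop, hgx1 x hx, hgx2 x hx, add_zero]
    norm_num
  have hfac : ∀ x ∈ Om, ∀ c g, Lop Lam c g = Lop Lam x g * Lop Lam c (gx x) := by
    intro x hx c g
    obtain ⟨R, hRR⟩ := hR x hx c
    have h := hRR (gx x)
    rw [hL1 x hx, one_mul] at h
    rw [h]
    exact hRR g
  set g1 := gx x1 with hg1
  have hg1x : g1 x1 = 12 := hgx1 x1 hx1
  have hLam1 : Lam x1 g1 = 0 := hgx2 x1 hx1
  set S : C → End k B := fun c => Lam c g1 with hS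
  have hSadd : ∀ c c', S (c + c') = S c + S c' := by
    intro c c'; simp [hS]
  have hSsmul : ∀ (t : k) c, S (t • c) = t • S c := by
    intro t c; simp [hS]
  -- good parameters on a line
  have hgood : ∀ c (F : Finset k), ∃ t : k, t ∉ F ∧ x1 + t • c ∈ Om := by
    intro c F
    have hfin : ({t : k | x1 + t • c ∉ Om} ∪ (F : Set k)).Finite := (hopen c).union F.finite_toSet
    obtain ⟨t, ht⟩ := hfin.infinite_compl.nonempty
    simp only [Set.compl_union, Set.mem_inter_iff, Set.mem_compl_iff, Set.mem_ofPred_eq,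
      not_not, Finset.mem_coe] at ht
    exact ⟨t, ht.2, ht.1⟩
  -- squares are scalars
  have hsq : ∀ c, ∃ q : k, S c * S c = q • (1 : End k B) := by
    intro c
    classical
    obtain ⟨t, htF, htO⟩ := hgood c {0, -12 / g1 c}
    simp only [Finset.mem_insert, Finset.mem_singleton, not_or] at htF
    obtain ⟨ht0, ht1⟩ := htF
    set y := x1 + t • c with hy
    have hs : g1 y / 12 ≠ 0 := by
      rw [hy, map_add, map_smul, hg1x, smul_eq_mul]
      intro h
      have h12 : (12 : k) ≠ 0 := by norm_num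
      have h2 : 12 + t * g1 c = 0 := by
        rcases div_eq_zero_iff.1 h with h | h
        · exact h
        · exact absurd h h12
      by_cases hgc : g1 c = 0
      · rw [hgc, mul_zero, add_zero] at h2
        exact h12 h2
      · apply ht1
        rw [eq_div_iff hgc]
        linear_combination h2
    have hTT : Lop Lam x1 (gx y) * Lop Lam y g1 = 1 := by
      rw [← hfac x1 hx1 y (gx y)]
      exact hL1 y htO
    obtain ⟨q, hq⟩ := square_scalar hnd hanti (sc_Lop hanti sym y g1) (sc_Lop hanti sym x1 (gx y))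
      hTT hs
    have e : Lop Lam y g1 - (g1 y / 12) • (1 : End k B) = t • S c := by
      rw [Lop, add_sub_cancel_left, hy, map_add, LinearMap.add_apply, hLam1, zero_add, map_smul]
      rfl
    rw [e, smul_mul_smul_comm] at hq
    refine ⟨(t * t)⁻¹ * q, ?_⟩
    rw [mul_smul, ← hq, smul_smul, inv_mul_cancel₀ (mul_ne_zero ht0 ht0), one_smul]
  choose Q hQ using hsq
  have hpol : ∀ c c', S c * S c' + S c' * S c = (Q (c + c') - Q c - Q c') • (1 : End k B) := by
    intro c c'
    rw [sub_smul, sub_smul, ← hQ, ← hQ, ← hQ, hSadd]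
    noncomm_ring
  -- the bilinear form
  have htr : ∀ c c', (Q (c + c') - Q c - Q c') * 80 =
      2 * LinearMap.trace k B (S c * S c') := by
    intro c c'
    have h := congrArg (LinearMap.trace k B) (hpol c c')
    rw [map_smul, LinearMap.trace_one, hB, map_add, LinearMap.trace_mul_comm k (S c')] at h
    rw [two_mul, h]
    simp
  set sg : C → k := fun c => g1 c / 12 with hsg
  set ta : C → C → k := fun c c' => LinearMap.trace k B (S c * S c') / 80 with hta
  have h80 : (80 : k) ≠ 0 := by norm_num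
  have h12 : (12 : k) ≠ 0 := by norm_num
  have hta2 : ∀ c c', S c * S c' + S c' * S c = (2 * ta c c') • (1 : End k B) := by
    intro c c'
    rw [hpol]
    congr 1
    rw [hta]
    field_simp
    linear_combination htr c c'
  have hta1 : ∀ c, S c * S c = ta c c • (1 : End k B) := by
    intro c
    have h := hta2 c c
    rw [← two_smul k, mul_smul] at h
    exact smul_right_injective _ (two_ne_zero (α := k)) h
  let N : LinearMap.BilinForm k C := LinearMap.mk₂ k (fun c c' => sg c * sg c' - ta c c')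
    (by
      intro c c' d
      simp only [hsg, hta, hSadd, map_add, add_mul]
      ring)
    (by
      intro t c d
      simp only [hsg, hta, hSsmul, map_smul, smul_mul_assoc, smul_eq_mul]
      ring)
    (by
      intro c d d'
      simp only [hsg, hta, hSadd, map_add, mul_add]
      ring)
    (by
      intro t c d
      simp only [hsg, hta, hSsmul, map_smul, mul_smul_comm, smul_eq_mul]
      ring)
  have hN : ∀ c c', N c c' = sg c * sg c' - ta c c' := fun c c' => rfl
  have hNsymm : ∀ c c', N c c' = N c' c := by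
    intro c c'
    rw [hN, hN, hta]
    simp only
    rw [LinearMap.trace_mul_comm k (S c)]
    ring
  have hNs : N.IsSymm := ⟨fun c c' => hNsymm c c'⟩
  have hSx1 : S x1 = 0 := hLam1
  have hsx1 : sg x1 = 1 := by
    rw [hsg]
    simp only [hg1x]
    norm_num
  have hNx1 : ∀ c, N x1 c = g1 c / 12 := by
    intro c
    rw [hN, hsx1, one_mul, hta]
    simp only [hSx1, zero_mul, map_zero, zero_div, sub_zero]
    rfl
  have hNx11 : N x1 x1 ≠ 0 := by
    rw [hNx1, hg1x]
    norm_num
  -- the key relation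
  have hkey : ∀ η ∈ Om, ∀ c, N η η • Lop Lam c (gx η) =
      (sg η • (1 : End k B) - S η) * (sg c • (1 : End k B) + S c) := by
    intro η hη c
    have h1 := hfac η hη c g1
    have h2 : (sg η • (1 : End k B) - S η) * Lop Lam η g1 = N η η • (1 : End k B) := by
      have e : Lop Lam η g1 = sg η • (1 : End k B) + S η := rfl
      rw [e, hN, sub_smul, ← hta1, ← smul_smul, sub_mul, mul_add, mul_add, smul_one_mul,
        smul_one_mul, mul_smul_one]
      abel
    have e : Lop Lam c g1 = sg c • (1 : End k B) + S c := rfl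
    rw [← e, h1, ← mul_assoc, h2, smul_one_mul]
  have hscS : ∀ c, sc om (S c) 0 := by
    intro c b b'
    have h1 := sym c g1 b b'
    have h2 := hanti b (Lam c g1 b')
    have h3 : om (S c b) b' = om (Lam c g1 b) b' := rfl
    have h4 : om b (S c b') = om b (Lam c g1 b') := rfl
    rw [h3, h4, h2, ← h1]
    ring
  have hNne : ∀ η ∈ Om, N η η ≠ 0 := by
    intro η hη h0
    have h1 := hkey η hη x1
    rw [h0, zero_smul, hsx1, hSx1, add_zero, one_smul, mul_one] at h1
    have h2 : S η = sg η • (1 : End k B) := (sub_eq_zero.1 h1.symm).symm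
    have h3 : sg η = 0 := by
      have ha : sc om (S η) (sg η) := by
        rw [h2]
        intro b b'
        simp only [LinearMap.smul_apply, Module.End.one_apply, map_smul, smul_eq_mul]
        ring
      exact sc_unique hnd ha (hscS η)
    have h4 : Lop Lam η g1 = 0 := by
      have e : Lop Lam η g1 = sg η • (1 : End k B) + S η := rfl
      rw [e, h2, h3, zero_smul, add_zero]
    have h5 := hfac η hη x1 g1
    rw [h4, zero_mul, hL1 x1 hx1] at h5
    exact one_ne_zero h5
  have hgN : ∀ η ∈ Om, ∀ c, N η η * (gx η c / 12) = N η c := by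
    intro η hη c
    have ha : sc om (N η η • Lop Lam c (gx η)) (N η η * (gx η c / 12)) := by
      intro b b'
      have h := sc_Lop hanti sym c (gx η) b b'
      simp only [LinearMap.smul_apply, map_smul, smul_eq_mul]
      linear_combination (N η η) * h
    have hb : sc om (N η η • Lop Lam c (gx η)) (N η c) := by
      rw [hkey η hη c]
      intro b b'
      have e1 := hscS η b b'
      have e2 := hscS c b b'
      have e3 := hscS η (S c b) b'
      have e4 := hscS c b (S η b')
      have e5 := hscS η b (S c b')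
      have e6 : om b (S c (S η b')) + om b (S η (S c b')) = 2 * ta η c * om b b' := by
        have h := congrArg (fun f : End k B => om b (f b')) (hta2 η c)
        simp only [LinearMap.add_apply, Module.End.mul_apply, LinearMap.smul_apply,
          Module.End.one_apply, map_add, map_smul, smul_eq_mul] at h
        linear_combination h
      rw [hN]
      simp only [Module.End.mul_apply, LinearMap.sub_apply, LinearMap.add_apply,
        LinearMap.smul_apply, Module.End.one_apply, map_add, map_sub, map_smul, smul_eq_mul]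
      linear_combination (-(sg c)) * e1 + (sg η) * e2 - e3 + e4 - e6
    exact sc_unique hnd ha hb
  -- polarisation
  have hE0 : ∀ η ∈ Om, Lam η (N η) = 0 := by
    intro η hη
    have h1 : N η = (N η η / 12) • gx η := by
      apply LinearMap.ext
      intro c
      rw [← hgN η hη c, LinearMap.smul_apply, smul_eq_mul]
      ring
    rw [h1, map_smul, hgx2 η hη, smul_zero]
  have hE : ∀ c, Lam c (N c) = 0 := by
    intro c
    classical
    obtain ⟨t, ht, htO⟩ := hgood c {0}
    obtain ⟨u, hu, huO⟩ := hgood c {0, t}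
    simp only [Finset.mem_insert, Finset.mem_singleton, not_or] at ht hu
    obtain ⟨hu0, hut⟩ := hu
    have hexp : ∀ t : k, Lam (x1 + t • c) (N (x1 + t • c)) =
        Lam x1 (N x1) + t • (Lam x1 (N c) + Lam c (N x1)) + (t * t) • Lam c (N c) := by
      intro t
      simp only [map_add, map_smul, LinearMap.add_apply, LinearMap.smul_apply, smul_add,
        smul_smul]
      abel
    have h0 := hE0 x1 hx1
    have h1 := hE0 _ htO
    have h2 := hE0 _ huO
    rw [hexp, h0, zero_add] at h1 h2
    set X := Lam x1 (N c) + Lam c (N x1) with hX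
    set Y := Lam c (N c) with hY
    have h1' : X + t • Y = 0 := by
      have : t • (X + t • Y) = 0 := by rw [smul_add, smul_smul]; exact h1
      exact (smul_eq_zero.1 this).resolve_left ht
    have h2' : X + u • Y = 0 := by
      have : u • (X + u • Y) = 0 := by rw [smul_add, smul_smul]; exact h2
      exact (smul_eq_zero.1 this).resolve_left hu0
    have h3 : (u - t) • Y = 0 := by
      rw [sub_smul, sub_eq_zero]
      exact add_left_cancel (h2'.trans h1'.symm)
    exact (smul_eq_zero.1 h3).resolve_left (sub_ne_zero.2 hut)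
  have hpolE : ∀ c c', Lam c (N c') + Lam c' (N c) = 0 := by
    intro c c'
    have h := hE (c + c')
    simp only [map_add, LinearMap.add_apply, hE c, hE c', zero_add, add_zero] at h
    rw [add_comm]
    exact h
  -- nondegeneracy
  have hrad : ∀ r, (∀ c, N r c = 0) → r = 0 := by
    intro r hr
    have hNr : N r = 0 := LinearMap.ext hr
    have hgr : g1 r = 0 := by
      have h := hr x1
      rw [hNsymm, hNx1] at h
      rcases div_eq_zero_iff.1 h with h | h
      · exact h
      · exact absurd h h12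
    have hSr : S r = 0 := by
      have h := hpolE r x1
      have h2 : N x1 = (1 / 12 : k) • g1 := by
        apply LinearMap.ext
        intro c
        rw [hNx1, LinearMap.smul_apply, smul_eq_mul]
        ring
      rw [hNr, map_zero, add_zero, h2, map_smul] at h
      exact (smul_eq_zero.1 h).resolve_left (by norm_num)
    have hL0 : Lop Lam r g1 = 0 := by
      have e : Lop Lam r g1 = (g1 r / 12) • (1 : End k B) + S r := rfl
      rw [e, hgr, hSr, zero_div, zero_smul, add_zero]
    have hg0 : ∀ g : Dual k C, g r = 0 := by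
      intro g
      have h := hfac x1 hx1 r g
      rw [← hg1, hL0, mul_zero] at h
      have h1 := sc_Lop hanti sym r g
      rw [h] at h1
      have h2 : sc om (0 : End k B) 0 := by
        intro b b'
        simp
      have h3 := sc_unique hnd h1 h2
      rcases div_eq_zero_iff.1 h3 with h | h
      · exact h
      · exact absurd h h12
    exact (Module.forall_dual_apply_eq_zero_iff k r).1 hg0
  have hNn : N.Nondegenerate :=
    ⟨fun r hr => hrad r hr, fun r hr => hrad r (fun c => (hNsymm r c).trans (hr c))⟩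
  have hfin := clifford_end hC N hNs hNn x1 hNx11 S (by
    intro c c' hc hc'
    rw [hta2, hN]
    have h1 : sg c = 0 := (hNx1 c).symm.trans hc
    rw [h1]
    congr 1
    ring)
  rw [hB] at hfin
  omega

end Main

end Pool.Agent.Licci.Six

end

section

/-!
# CF5: no module of dimension 12 over the Clifford algebra of an 11-dimensional nondegenerate form
-/

set_option autoImplicit false

open Module

namespace LicciCF

variable {k C : Type*} [Field k] [CharZero k] [AddCommGroup C] [Module k C] [FiniteDimensional k C]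

/-- CF5 -/
theorem no_clifford (h12 : finrank k C = 12) (W : Type*) [AddCommGroup W] [Module k W]
    [FiniteDimensional k W] (hW : finrank k W = 11) (K : W →ₗ[k] W →ₗ[k] k)
    (Tw : W →ₗ[k] (C →ₗ[k] C)) (hnd : ∀ w, (∀ w', K w w' = 0) → w = 0)
    (hsymm : ∀ w w', K w w' = K w' w)
    (hT : ∀ w, Tw w ∘ₗ Tw w = K w w • LinearMap.id) : False := by
  classical
  have hpol : ∀ w w', Tw w ∘ₗ Tw w' + Tw w' ∘ₗ Tw w = (2 * K w w') • LinearMap.id := by
    intro w w'
    have h := hT (w + w')
    have h1 := hT w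
    have h2 := hT w'
    ext v
    have e := congrArg (fun f : C →ₗ[k] C => f v) h
    have e1 := congrArg (fun f : C →ₗ[k] C => f v) h1
    have e2 := congrArg (fun f : C →ₗ[k] C => f v) h2
    simp only [LinearMap.comp_apply, map_add, LinearMap.add_apply, LinearMap.smul_apply,
      LinearMap.id_apply] at e e1 e2 ⊢
    rw [e1, e2, hsymm w' w] at e
    have e3 : (K w w + K w w' + (K w w' + K w' w')) • v = K w w • v + (2 * K w w') • v + K w' w' • v := by
      module
    rw [e3] at e
    have e4 : K w w • v + (Tw w') ((Tw w) v) + ((Tw w) ((Tw w') v) + K w' w' • v) =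
      K w w • v + ((Tw w) ((Tw w') v) + (Tw w') ((Tw w) v)) + K w' w' • v := by abel
    rw [e4] at e
    exact add_left_cancel (add_right_cancel e)
  have : Invertible (2 : k) := invertibleOfNonzero two_ne_zero
  let N : LinearMap.BilinForm k W := K
  have hNs : N.IsSymm := ⟨fun x y => hsymm x y⟩
  have hNn : N.Nondegenerate := by
    refine ⟨fun x hx => hnd x hx, fun y hy => hnd y fun x => ?_⟩
    rw [hsymm]
    exact hy x
  obtain ⟨v0, hv0⟩ := LinearMap.BilinForm.exists_orthogonal_basis (B := N) ⟨fun x y => hsymm x y⟩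
  let e : Fin (finrank k W) ≃ Fin 11 := finCongr hW
  have hvo : ∀ i j, i ≠ j → K (v0 i) (v0 j) = 0 := fun i j hij => hv0 hij
  have hvn : ∀ i, K (v0 i) (v0 i) ≠ 0 := fun i =>
    LinearMap.BilinForm.iIsOrtho.not_isOrtho_basis_self_of_nondegenerate hv0 hNn i
  let w : Fin (2 * 3) → W := fun i => v0 (e.symm (Fin.castLE (by norm_num) i))
  have hinj : ∀ i j : Fin (2 * 3), i ≠ j →
      e.symm (Fin.castLE (by norm_num) i) ≠ e.symm (Fin.castLE (by norm_num) j) := by
    intro i j hij h
    have h2 := e.symm.injective h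
    exact hij (Fin.castLE_injective _ h2)
  have h := Pool.Agent.Licci.Six.two_pow_dvd 3 C (fun i => (Tw (w i) : End k C)) (fun i => K (w i) (w i))
    (fun i => hvn _) (fun i => hT (w i))
    (fun i j hij => by
      have h1 := hpol (w i) (w j)
      have h2 : K (w i) (w j) = 0 := hvo _ _ (hinj i j hij)
      rw [h2, mul_zero, zero_smul] at h1
      exact eq_neg_of_add_eq_zero_left h1)
  rw [h12] at h
  norm_num at h

end LicciCF

end
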